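import Pool.Agent.helper77.MC.Spec

/-! # Row CR of project MC -/

set_option autoImplicit false

namespace Pool.Agent.helper77.MC

open Finset Numbering

theorem CR : CR_stmt := by
  intro q k r hr0 hr1 hkq hk j d
  have step : ∀ i : ℕ, i + 1 ≤ k → (q.choose i : ℝ) ≤ r * (q.choose (i + 1) : ℝ) := by
    intro i hi
    have h1 : q.choose (i + 1) * (i + 1) = q.choose i * (q - i) := Nat.choose_succ_right_eq q i
    have hiq : i ≤ q := by omega
    have h2 : (q.choose (i + 1) : ℝ) * ((i : ℝ) + 1) = (q.choose i : ℝ) * ((q : ℝ) - i) := by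
      have h3 : ((q.choose (i + 1) * (i + 1) : ℕ) : ℝ) = ((q.choose i * (q - i) : ℕ) : ℝ) := by rw [h1]
      rw [Nat.cast_mul, Nat.cast_mul, Nat.cast_sub hiq, Nat.cast_add, Nat.cast_one] at h3
      exact h3
    have h4 : ((i : ℝ) + 1) ≤ k := by exact_mod_cast hi
    have h5 : (k : ℝ) ≤ q := by exact_mod_cast hkq
    have h6 : (0 : ℝ) < (q : ℝ) - i := by linarith
    have h7 : ((i : ℝ) + 1) ≤ r * ((q : ℝ) - i) := by
      have h8 : r * ((q : ℝ) + 1 - k) ≤ r * ((q : ℝ) - i) := mul_le_mul_of_nonneg_left (by linarith) hr0.le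
      linarith
    have h9 : (q.choose i : ℝ) * ((q : ℝ) - i) ≤ (r * (q.choose (i + 1) : ℝ)) * ((q : ℝ) - i) := by
      rw [← h2]
      have h10 : (q.choose (i + 1) : ℝ) * ((i : ℝ) + 1) ≤ (q.choose (i + 1) : ℝ) * (r * ((q : ℝ) - i)) :=
        mul_le_mul_of_nonneg_left h7 (Nat.cast_nonneg _)
      calc (q.choose (i + 1) : ℝ) * ((i : ℝ) + 1) ≤ (q.choose (i + 1) : ℝ) * (r * ((q : ℝ) - i)) := h10
        _ = (r * (q.choose (i + 1) : ℝ)) * ((q : ℝ) - i) := by ring
    exact le_of_mul_le_mul_right h9 h6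
  induction d with
  | zero =>
    intro _
    simp
  | succ d ih =>
    intro hd
    have h1 := ih (by omega)
    have h2 := step (j + d) (by omega)
    calc (q.choose j : ℝ) ≤ r ^ d * (q.choose (j + d) : ℝ) := h1
      _ ≤ r ^ d * (r * (q.choose (j + d + 1) : ℝ)) := mul_le_mul_of_nonneg_left h2 (by positivity)
      _ = r ^ (d + 1) * (q.choose (j + (d + 1)) : ℝ) := by
          rw [← Nat.add_assoc]
          ring

end Pool.Agent.helper77.MC
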