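import Pool.Agent.helper79.MC.Base

/-!
MC project (MP_ddb86a_co), module G: traces on a finite field of characteristic 2 and the
operators `phi0` and `LL`.
-/

set_option autoImplicit false
open Finset Classical

namespace MCut

section G
variable {K : Type*} [Field K]

def phi0 (l : ℕ) (e : K) : K := ∑ i ∈ range ((l - 1) / 2), e ^ 2 ^ (i + 1)

def LL (l T : ℕ) (a : Fin T → K) (e : K) : K :=
  ∑ j : Fin T, (a j * e ^ 2 ^ (j.1 + 1) + (a j * e) ^ 2 ^ (l - (j.1 + 1)))

/-- A trace: additive map to `ZMod 2`, Frobenius invariant, given by the usual sum, nondegenerate. -/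
structure IsTr (l : ℕ) (tr : K →+ ZMod 2) : Prop where
  sq : ∀ x, tr (x ^ 2) = tr x
  sum : ∀ x, (if tr x = 0 then (0 : K) else 1) = ∑ i ∈ range l, x ^ 2 ^ i
  nondeg : ∀ x, (∀ y, tr (x * y) = 0) → x = 0

theorem G_zmod2 (a : ZMod 2) : a = 0 ∨ a = 1 := by
  revert a; decide

theorem G_pow_card [Fintype K] (l : ℕ) (hK : Fintype.card K = 2 ^ l) (x : K) :
    x ^ 2 ^ l = x := by
  rw [← hK]; exact FiniteField.pow_card x

theorem exists_tr [Fintype K] [CharP K 2] (l : ℕ) (hK : Fintype.card K = 2 ^ l) :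
    ∃ tr : K →+ ZMod 2, IsTr l tr := by
  letI : Algebra (ZMod 2) K := ZMod.algebra K 2
  haveI : Module.Finite (ZMod 2) K := Module.Finite.of_finite
  have hfin : Module.finrank (ZMod 2) K = l := by
    have h := Module.card_eq_pow_finrank (K := ZMod 2) (V := K)
    rw [ZMod.card, hK] at h
    exact (Nat.pow_right_injective (le_refl 2) h).symm
  have hsum : ∀ x : K, algebraMap (ZMod 2) K (Algebra.trace (ZMod 2) K x)
      = ∑ i ∈ range l, x ^ 2 ^ i := by
    intro x
    have h := FiniteField.algebraMap_trace_eq_sum_pow (ZMod 2) K x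
    rw [hfin] at h
    simpa using h
  refine ⟨(Algebra.trace (ZMod 2) K).toAddMonoidHom, ?_, ?_, ?_⟩
  · intro x
    apply FaithfulSMul.algebraMap_injective (ZMod 2) K
    have h1 := hsum (x ^ 2)
    have h2 := hsum x
    have h3 : ∑ i ∈ range l, (x ^ 2) ^ 2 ^ i = ∑ i ∈ range l, x ^ 2 ^ i := by
      have h4 : ∑ i ∈ range l, (x ^ 2) ^ 2 ^ i = ∑ i ∈ range l, x ^ 2 ^ (i + 1) := by
        refine Finset.sum_congr rfl fun i _ => ?_
        rw [← pow_mul, pow_succ']
      have h5 : ∑ i ∈ range l, x ^ 2 ^ (i + 1) + x = ∑ i ∈ range l, x ^ 2 ^ i + x := by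
        have h6 := Finset.sum_range_succ (fun i => x ^ 2 ^ i) l
        have h7 := Finset.sum_range_succ' (fun i => x ^ 2 ^ i) l
        simp only [G_pow_card l hK, pow_zero, pow_one] at h6 h7
        rw [← h6, ← h7]
      rw [h4]
      exact add_right_cancel h5
    change algebraMap (ZMod 2) K (Algebra.trace (ZMod 2) K (x ^ 2))
      = algebraMap (ZMod 2) K (Algebra.trace (ZMod 2) K x)
    rw [h1, h2, h3]
  · intro x
    rw [← hsum x]
    change (if (Algebra.trace (ZMod 2) K x) = 0 then (0 : K) else 1)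
      = algebraMap (ZMod 2) K (Algebra.trace (ZMod 2) K x)
    rcases G_zmod2 (Algebra.trace (ZMod 2) K x) with h | h
    · rw [h]; simp
    · rw [h]; simp
  · intro x hx
    have h := (traceForm_nondegenerate (ZMod 2) K).1 x
    apply h
    intro y
    rw [Algebra.traceForm_apply]
    exact hx y

theorem G_tr_pow {l : ℕ} {tr : K →+ ZMod 2} (htr : IsTr l tr) (k : ℕ) (x : K) :
    tr (x ^ 2 ^ k) = tr x := by
  induction k with
  | zero => simp
  | succ k ih => rw [pow_succ, pow_mul, htr.sq, ih]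

variable [Fintype K] [CharP K 2]

theorem G_tr_shift {l : ℕ} (hK : Fintype.card K = 2 ^ l) {tr : K →+ ZMod 2}
    (htr : IsTr l tr) (i : ℕ) (hi : i ≤ l) (x y : K) :
    tr (x * y ^ 2 ^ i) = tr (x ^ 2 ^ (l - i) * y) := by
  rw [← G_tr_pow htr (l - i) (x * y ^ 2 ^ i), mul_pow, ← pow_mul, ← pow_add,
    Nat.add_sub_cancel' hi, G_pow_card l hK]

theorem phi0_adj (l : ℕ) (hl : Odd l) (hK : Fintype.card K = 2 ^ l) (tr : K →+ ZMod 2)
    (htr : IsTr l tr) (e e' : K) :
    tr (phi0 l e * e') + tr (e * phi0 l e') = tr (e * e') + tr e * tr e' := by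
  obtain ⟨m, hm⟩ := hl
  have hm2 : (l - 1) / 2 = m := by omega
  have h1 : tr (phi0 l e * e') = ∑ i ∈ range m, tr (e ^ 2 ^ (i + 1) * e') := by
    rw [phi0, hm2, Finset.sum_mul, map_sum]
  have h2 : tr (e * phi0 l e') = ∑ i ∈ range m, tr (e ^ 2 ^ (2 * m - i) * e') := by
    rw [phi0, hm2, Finset.mul_sum, map_sum]
    refine Finset.sum_congr rfl fun i hi => ?_
    rw [Finset.mem_range] at hi
    rw [G_tr_shift hK htr (i + 1) (by omega)]
    congr 4
    omega
  have h3 : ∑ i ∈ range m, tr (e ^ 2 ^ (2 * m - i) * e')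
      = ∑ i ∈ range m, tr (e ^ 2 ^ (m + i + 1) * e') := by
    rw [← Finset.sum_range_reflect]
    refine Finset.sum_congr rfl fun i hi => ?_
    rw [Finset.mem_range] at hi
    congr 4
    omega
  have h4 : ∑ i ∈ range (m + m), tr (e ^ 2 ^ (i + 1) * e')
      = ∑ i ∈ range m, tr (e ^ 2 ^ (i + 1) * e')
        + ∑ i ∈ range m, tr (e ^ 2 ^ (m + i + 1) * e') := Finset.sum_range_add _ _ _
  have h5 : ∑ i ∈ range (m + m + 1), tr (e ^ 2 ^ i * e')
      = ∑ i ∈ range (m + m), tr (e ^ 2 ^ (i + 1) * e') + tr (e * e') := by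
    rw [Finset.sum_range_succ']
    simp
  have h6 : ∑ i ∈ range (m + m + 1), tr (e ^ 2 ^ i * e') = tr e * tr e' := by
    rw [← map_sum, ← Finset.sum_mul, ← two_mul, ← hm, ← htr.sum e]
    rcases G_zmod2 (tr e) with h | h
    · rw [h]; simp
    · rw [h]; simp
  rw [h1, h2, h3, ← h4, ← h6, h5]
  have h7 : tr (e * e') + tr (e * e') = 0 := CharTwo.add_self_eq_zero _
  calc ∑ i ∈ range (m + m), tr (e ^ 2 ^ (i + 1) * e')
      = ∑ i ∈ range (m + m), tr (e ^ 2 ^ (i + 1) * e') + (tr (e * e') + tr (e * e')) := by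
        rw [h7, add_zero]
    _ = _ := by ring

theorem LL_adj (l T : ℕ) (hT : T < l) (hK : Fintype.card K = 2 ^ l) (tr : K →+ ZMod 2)
    (htr : IsTr l tr) (a : Fin T → K) (e e' : K) :
    tr (LL l T a e * e') = tr (e * LL l T a e') := by
  have key : ∀ x y : K, tr (LL l T a x * y)
      = ∑ j : Fin T, (tr (a j * x ^ 2 ^ (j.1 + 1) * y) + tr (a j * x * y ^ 2 ^ (j.1 + 1))) := by
    intro x y
    rw [LL, Finset.sum_mul, map_sum]
    refine Finset.sum_congr rfl fun j _ => ?_
    have hj := j.2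
    rw [add_mul, map_add, G_tr_shift hK htr (j.1 + 1) (by omega) (a j * x) y]
  rw [mul_comm e, key, key]
  refine Finset.sum_congr rfl fun j _ => ?_
  rw [add_comm]
  congr 2
  · ring
  · ring

theorem phi0_add (l : ℕ) (e e' : K) : phi0 l (e + e') = phi0 l e + phi0 l e' := by
  rw [phi0, phi0, phi0, ← Finset.sum_add_distrib]
  refine Finset.sum_congr rfl fun i _ => ?_
  exact add_pow_char_pow e e' 2 _

theorem LL_add (l T : ℕ) (a : Fin T → K) (e e' : K) :
    LL l T a (e + e') = LL l T a e + LL l T a e' := by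
  rw [LL, LL, LL, ← Finset.sum_add_distrib]
  refine Finset.sum_congr rfl fun j _ => ?_
  rw [mul_add, add_pow_char_pow e e' 2, add_pow_char_pow _ _ 2]
  ring

theorem LL_add_left (l T : ℕ) (a b : Fin T → K) (e : K) :
    LL l T (a + b) e = LL l T a e + LL l T b e := by
  rw [LL, LL, LL, ← Finset.sum_add_distrib]
  refine Finset.sum_congr rfl fun j _ => ?_
  rw [Pi.add_apply, add_mul, add_mul, add_pow_char_pow _ _ 2]
  ring

/-- if `tr (e z) = 0` for all `e` with `tr e = 0`, then `z` is `0` or `1` -/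
theorem ker_dual (l : ℕ) (tr : K →+ ZMod 2) (htr : IsTr l tr) (z : K)
    (hz : ∀ e, tr e = 0 → tr (e * z) = 0) : z = 0 ∨ z = 1 := by
  obtain ⟨e1, he1⟩ : ∃ e1, tr e1 ≠ 0 := by
    by_contra hcon
    push Not at hcon
    have h := htr.nondeg 1 (fun y => by rw [one_mul]; exact hcon y)
    exact one_ne_zero h
  have he1' : tr e1 = 1 := (G_zmod2 (tr e1)).resolve_left he1
  have hall : ∀ κ : K, (κ = 0 ∧ tr (e1 * z) = 0 ∨ κ = 1 ∧ tr (e1 * z) = 1) → z = κ := by
    intro κ hκ
    have h0 : z + κ = 0 := by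
      apply htr.nondeg
      intro y
      rw [mul_comm, mul_add, map_add]
      rcases G_zmod2 (tr y) with hy | hy
      · rw [hz y hy]
        rcases hκ with ⟨h, _⟩ | ⟨h, _⟩
        · rw [h]; simp
        · rw [h]; simpa using hy
      · have h1 : tr (y + e1) = 0 := by
          rw [map_add, hy, he1']; decide
        have h2 := hz _ h1
        rw [add_mul, map_add] at h2
        rcases hκ with ⟨h, h'⟩ | ⟨h, h'⟩
        · rw [h', add_zero] at h2
          rw [h, h2]; simp
        · rw [h'] at h2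
          rw [h, mul_one, hy]
          exact h2
    exact CharTwo.add_eq_zero.1 h0
  rcases G_zmod2 (tr (e1 * z)) with h | h
  · exact Or.inl (hall 0 (Or.inl ⟨rfl, h⟩))
  · exact Or.inr (hall 1 (Or.inr ⟨rfl, h⟩))

end G

end MCut
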